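import Pool.Agent.W650.HL.Stm

/-! Parts DELTREE, EXLEAF, DGLEAF of project HL (helper650). -/

set_option autoImplicit false

namespace Pool.W741.HL

open Pool.W650.HL

theorem leaf_deg {V : Type} (G : SimpleGraph V) (l u : V) (h : Leaf G l u)
    [Fintype (G.neighborSet l)] : G.degree l = 1 := by
  rw [SimpleGraph.degree_eq_one_iff_existsUnique_adj]
  exact ⟨u, h.1, fun w hw => h.2 w hw⟩

theorem deg_leaf {V : Type} (G : SimpleGraph V) (l : V) [Fintype (G.neighborSet l)]
    (h : G.degree l = 1) : ∃ u, Leaf G l u := by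
  rw [SimpleGraph.degree_eq_one_iff_existsUnique_adj] at h
  obtain ⟨u, hu, huniq⟩ := h
  exact ⟨u, hu, fun w hw => huniq w hw⟩

theorem dgleaf : DGLEAF := by
  intro V _ G l
  unfold dg
  rw [Set.ncard_eq_one]
  constructor
  · rintro ⟨u, hu⟩
    refine ⟨u, ?_, ?_⟩
    · have : u ∈ G.neighborSet l := by rw [hu]; exact Set.mem_singleton u
      exact this
    · intro w hw
      have : w ∈ G.neighborSet l := hw
      rw [hu] at this
      exact this
  · rintro ⟨u, hu, hw⟩
    refine ⟨u, ?_⟩
    ext w
    constructor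
    · intro h
      exact hw w h
    · intro h
      rw [Set.mem_singleton_iff.1 h]
      exact hu

theorem exleaf : EXLEAF := by
  intro V _ G hG c hcard
  classical
  haveI : Nontrivial V := Fintype.one_lt_card_iff_nontrivial.1 (by omega)
  obtain ⟨u, v, huv, hu, hv⟩ := hG.exists_ne_and_degree_eq_one
  by_cases h : u = c
  · obtain ⟨w, hw⟩ := deg_leaf G v hv
    exact ⟨v, w, fun e => huv (h.trans e.symm), hw⟩
  · obtain ⟨w, hw⟩ := deg_leaf G u hu
    exact ⟨u, w, h, hw⟩

theorem deltree : DELTREE := by
  intro V _ _ G l u hG hl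
  classical
  refine ⟨⟨?_, ?_⟩, ?_⟩
  · have h := hG.connected.induce_compl_singleton_of_degree_eq_one (leaf_deg G l u hl)
    exact h
  · exact hG.isAcyclic.comap ⟨Subtype.val, fun h => h⟩ Subtype.val_injective
  · intro w
    have himg : Subtype.val '' ((del G l).neighborSet w) = G.neighborSet w.1 \ {l} := by
      ext x
      constructor
      · rintro ⟨y, hy, rfl⟩
        exact ⟨hy, y.2⟩
      · rintro ⟨hx, hxl⟩
        exact ⟨⟨x, hxl⟩, hx, rfl⟩
    have hcard : dg (del G l) w = (G.neighborSet w.1 \ {l}).ncard := by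
      unfold dg
      rw [← himg, Set.ncard_image_of_injective _ Subtype.val_injective]
    constructor
    · intro hw
      rw [hcard]
      unfold dg
      refine Set.ncard_diff_singleton_add_one ?_ (Set.toFinite _)
      show G.Adj w.1 l
      rw [hw]
      exact hl.1.symm
    · intro hw
      rw [hcard]
      unfold dg
      rw [Set.sdiff_singleton_eq_self]
      intro h
      exact hw (hl.2 w.1 (SimpleGraph.Adj.symm h))

end Pool.W741.HL

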